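import Mathlib
import Pool.Agent.H990R2.CutCyc

open Finset Filter Topology

namespace Pool.Agent.Results.MP_7e070a_pr.SymmetricNoCutoff

noncomputable section

/-- `μ` is a symmetric probability measure on `ℤ/n`. -/
def IsSymmProb {n : ℕ} [NeZero n] (μ : ZMod n → ℝ) : Prop :=
  (∀ x, 0 ≤ μ x) ∧ ∑ x, μ x = 1 ∧ ∀ x, μ (-x) = μ x

/-- The `t`-step law `μ^{*t}` of the convolution walk started from `0`. -/
def convPow {n : ℕ} [NeZero n] (μ : ZMod n → ℝ) : ℕ → ZMod n → ℝ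
  | 0 => fun x => if x = 0 then 1 else 0
  | t + 1 => fun x => ∑ y, convPow μ t y * μ (x - y)

/-- Irreducibility: the support of `μ` generates `ℤ/n`. -/
def Irred {n : ℕ} [NeZero n] (μ : ZMod n → ℝ) : Prop :=
  AddSubgroup.closure {x | μ x ≠ 0} = ⊤

/-- Aperiodicity: the greatest common divisor of the possible return times to `0` is `1`. -/
def Aperiodic {n : ℕ} [NeZero n] (μ : ZMod n → ℝ) : Prop :=
  ∀ d : ℕ, (∀ t : ℕ, 0 < t → 0 < convPow μ t 0 → d ∣ t) → d = 1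

/-- Total variation distance `‖μ^{*t} - U‖_TV` to the uniform distribution. -/
def tvDist {n : ℕ} [NeZero n] (μ : ZMod n → ℝ) (t : ℕ) : ℝ :=
  (1 / 2 : ℝ) * ∑ x, |convPow μ t x - 1 / (n : ℝ)|

/-- The mixing time `T_mix(ε) = min {t : ‖μ^{*t} - U‖_TV ≤ ε}`. -/
def Tmix {n : ℕ} [NeZero n] (μ : ZMod n → ℝ) (ε : ℝ) : ℕ :=
  sInf {t : ℕ | tvDist μ t ≤ ε}

/-- The eigenvalue `μ̂(j) = ∑_x μ(x) cos(2π jx/n)` of the transition matrix. -/
def hat {n : ℕ} [NeZero n] (μ : ZMod n → ℝ) (j : ZMod n) : ℝ :=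
  ∑ x : ZMod n, μ x * Real.cos (2 * Real.pi * (j.val * x.val) / n)

/-- The relaxation time `T_rel = 1/(1 - λ_*)`, where `λ_* = max_{j ≠ 0} |μ̂(j)|` is the largest
absolute value of an eigenvalue other than the simple eigenvalue `1 = μ̂(0)`. -/
def Trel {n : ℕ} [NeZero n] (μ : ZMod n → ℝ) : ℝ :=
  1 / (1 - ⨆ j : {j : ZMod n // j ≠ 0}, |hat μ j.1|)

/-- Total variation cutoff: `T_mix(ε)/T_mix(1-ε) → 1` for every fixed `ε ∈ (0,1/2)`. -/
def HasCutoff (n : ℕ → ℕ) [∀ k, NeZero (n k)] (μ : ∀ k, ZMod (n k) → ℝ) : Prop :=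
  ∀ ε : ℝ, 0 < ε → ε < 1 / 2 →
    Tendsto (fun k => (Tmix (μ k) ε : ℝ) / (Tmix (μ k) (1 - ε) : ℝ)) atTop (𝓝 1)

theorem convPow_eq {n : ℕ} [NeZero n] (μ : ZMod n → ℝ) (t : ℕ) :
    convPow μ t = H990R2.CutCyc.law μ t := by
  induction t with
  | zero => rfl
  | succ t ih => simp only [convPow, H990R2.CutCyc.law, ih]

theorem hat_re {n : ℕ} [NeZero n] (μ : ZMod n → ℝ) (j : ZMod n) :
    hat μ j = (∑ x, (μ x : ℂ) * H990R2.CutCyc.chr j x).re := by
  rw [hat, Complex.re_sum]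
  refine Finset.sum_congr rfl fun x _ => ?_
  rw [H990R2.CutCyc.chr_apply, Complex.re_ofReal_mul]
  congr 1
  have : (2 * Real.pi * Complex.I * (j.val * x.val) / n : ℂ) =
      ((2 * Real.pi * (j.val * x.val) / n : ℝ) : ℂ) * Complex.I := by
    push_cast; ring
  rw [this, Complex.exp_ofReal_mul_I_re]

/-- There are symmetric, irreducible, aperiodic convolution walks on cycles `ℤ/n_k`, `n_k → ∞`,
with `T_mix(1/4)/T_rel → ∞` but without total variation cutoff. -/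
theorem result :
    ∃ (n : ℕ → ℕ) (_ : ∀ k, NeZero (n k)) (μ : ∀ k, ZMod (n k) → ℝ),
      Tendsto n atTop atTop ∧
      (∀ k, 2 ≤ n k) ∧
      (∀ k, IsSymmProb (μ k)) ∧
      (∀ k, Irred (μ k)) ∧
      (∀ k, Aperiodic (μ k)) ∧
      Tendsto (fun k => (Tmix (μ k) (1 / 4) : ℝ) / Trel (μ k)) atTop atTop ∧
      ¬ HasCutoff n μ := by
  choose N hN S hTN hS using fun n : ℕ => Helper394.exists_bad (n + 64) (by omega)
  have hd : ∀ k t, tvDist (H990R2.CutCyc.lazyMeas (S k)) t =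
      (1 / 2 : ℝ) * ∑ x, |H990R2.CutCyc.law (H990R2.CutCyc.lazyMeas (S k)) t x -
        1 / (N k : ℝ)| := by
    intro k t
    rw [tvDist, convPow_eq]
  have h1 : ∀ n, ∀ t ≤ n + 64, 1 / 2 < tvDist (H990R2.CutCyc.lazyMeas (S n)) t := by
    intro n t ht
    have h := H990R2.CutCyc.tv_lower (hS n) t ht
    rw [hd]
    linarith
  have h2 : ∀ n, tvDist (H990R2.CutCyc.lazyMeas (S n)) (2 * ((n + 64) / 8) + 1) ≤
      1 - 1 / 2000 := by
    intro n
    rw [hd]
    exact H990R2.CutCyc.tv_upper (hS n) _ (by omega)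
  have h3 : ∀ n ε, 0 < ε → ∃ t, tvDist (H990R2.CutCyc.lazyMeas (S n)) t ≤ ε := by
    intro n ε hε
    obtain ⟨t, ht⟩ := H990R2.CutCyc.tv_conv (hS n) ε hε
    exact ⟨t, by rw [hd]; exact ht⟩
  have hgap : ∀ k, (⨆ j : {j : ZMod (N k) // j ≠ 0},
      |hat (H990R2.CutCyc.lazyMeas (S k)) j.1|) ≤ 7 / 8 := by
    intro k
    apply Real.iSup_le _ (by norm_num)
    intro j
    have h := H990R2.CutCyc.hat_norm (hS k) j.2
    rw [hat_re]
    exact (Complex.abs_re_le_norm _).trans h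
  have hgap0 : ∀ k, 0 ≤ (⨆ j : {j : ZMod (N k) // j ≠ 0},
      |hat (H990R2.CutCyc.lazyMeas (S k)) j.1|) := fun k =>
    Real.iSup_nonneg fun j => abs_nonneg _
  refine ⟨N, hN, fun k => H990R2.CutCyc.lazyMeas (S k), ?_, ?_, ?_, ?_, ?_, ?_, ?_⟩
  · refine tendsto_atTop_mono (fun k => ?_) tendsto_id
    have := hTN k
    simp only [id]
    omega
  · intro k
    have := hTN k
    omega
  · exact fun k => ⟨H990R2.CutCyc.lazyMeas_nonneg _, H990R2.CutCyc.lazyMeas_sum (hS k).nonempty,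
      H990R2.CutCyc.lazyMeas_symm (hS k).neg⟩
  · intro k
    exact H990R2.CutCyc.top_of_sub (hS k) _ fun s hs =>
      AddSubgroup.subset_closure (H990R2.CutCyc.lazyMeas_ne hs)
  · intro k d h
    have h4 := h 1 one_pos (by
      simp only [convPow]
      rw [Finset.sum_eq_single (0 : ZMod (N k))]
      · simp only [if_true, one_mul, sub_zero]
        exact H990R2.CutCyc.lazyMeas_zero _
      · intro b _ hb; simp [hb]
      · intro hb; exact absurd (Finset.mem_univ _) hb)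
    exact Nat.dvd_one.mp h4
  · apply Helper394.tendsto_div_of
    · intro n
      exact Helper394.sInf_gt _ (n + 64) _ (by norm_num) (h1 n) (h3 n _ (by norm_num))
    · intro n
      have h4 := hgap n
      have h6 : 0 < 1 - ⨆ j : {j : ZMod (N n) // j ≠ 0},
          |hat (H990R2.CutCyc.lazyMeas (S n)) j.1| := by linarith
      refine ⟨one_div_pos.mpr h6, ?_⟩
      rw [Trel, div_le_iff₀ h6]
      linarith
  · intro hcut
    exact Helper394.no_cutoff_of (fun n => tvDist (H990R2.CutCyc.lazyMeas (S n))) h1 h2 h3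
      (hcut (1 / 2000) (by norm_num) (by norm_num))

end

end Pool.Agent.Results.MP_7e070a_pr.SymmetricNoCutoff
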